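import Mathlib

set_option autoImplicit false

namespace Pool.Agent.Lib.MP_e79d62_co

variable {k : Type} [Field k] [CharP k 2]

/-- the key equation -/
def E1 (m0 m1 m2 m3 s0 s1 s2 : k) : Prop :=
  (1 + s1) * ((m3 + m0) * s0 + m3 * (1 + m0)) * ((m1 + m2) * s2 + m2 * (1 + m1)) =
    s1 * ((1 + m3 + m0) * s0 + m3 * m0) * ((1 + m1 + m2) * s2 + m1 * m2)

theorem E1_generic (m0 m1 m2 m3 s0 s1 s2 μ : k) (hμ : μ = 1 + m0 + m1 + m2 + m3)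
    (hA : s1 * (μ * (s0 + s2 + 1 + m0 + m1) + (m0 ^ 2 + m0) + (m1 ^ 2 + m1)) =
      μ * (s0 + m0 + 1) * (s2 + m1 + 1) + (m1 ^ 2 + m1) * (s0 + m0 + 1) +
        (m0 ^ 2 + m0) * (s2 + m1 + 1))
    (hC : μ ^ 2 * (s0 ^ 2 + s0) * (s2 ^ 2 + s2) + (m1 ^ 2 + m1) * (m2 ^ 2 + m2) * (s0 ^ 2 + s0) +
      (m3 ^ 2 + m3) * (m0 ^ 2 + m0) * (s2 ^ 2 + s2) = 0)
    (hD : μ * (s0 + s2 + 1 + m0 + m1) + (m0 ^ 2 + m0) + (m1 ^ 2 + m1) ≠ 0) :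
    E1 m0 m1 m2 m3 s0 s1 s2 := by
  unfold E1
  subst hμ
  apply mul_right_cancel₀ hD
  set A := ((m3 + m0) * s0 + m3 * (1 + m0)) * ((m1 + m2) * s2 + m2 * (1 + m1)) with hA'
  set B := ((1 + m3 + m0) * s0 + m3 * m0) * ((1 + m1 + m2) * s2 + m1 * m2) with hB'
  set D := (1 + m0 + m1 + m2 + m3) * (s0 + s2 + 1 + m0 + m1) + (m0 ^ 2 + m0) + (m1 ^ 2 + m1)
    with hD'
  set N := (1 + m0 + m1 + m2 + m3) * (s0 + m0 + 1) * (s2 + m1 + 1) +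
    (m1 ^ 2 + m1) * (s0 + m0 + 1) + (m0 ^ 2 + m0) * (s2 + m1 + 1) with hN'
  have key : A * D + N * (A + B) = (1 + m0 + m1 + m2 + m3) ^ 2 * (s0 ^ 2 + s0) * (s2 ^ 2 + s2) +
      (m1 ^ 2 + m1) * (m2 ^ 2 + m2) * (s0 ^ 2 + s0) +
      (m3 ^ 2 + m3) * (m0 ^ 2 + m0) * (s2 ^ 2 + s2) := by
    rw [hA', hB', hD', hN']
    clear * -
    grind
  rw [hC] at key
  have e1 : (1 + s1) * ((m3 + m0) * s0 + m3 * (1 + m0)) * ((m1 + m2) * s2 + m2 * (1 + m1)) * D =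
    A * D + (s1 * D) * A := by rw [hA']; ring
  have e2 : s1 * ((1 + m3 + m0) * s0 + m3 * m0) * ((1 + m1 + m2) * s2 + m1 * m2) * D =
    (s1 * D) * B := by rw [hB']; ring
  rw [e1, e2, hA]
  clear_value A B D N
  clear * - key
  grind

theorem E1_exc (m0 m1 m2 m3 K θ s0 s1 s2 μ Y Z : k) (hμ : μ = 1 + m0 + m1 + m2 + m3)
    (hY : Y = (m0 ^ 2 + m0) * (m2 ^ 2 + m2)) (hZ : Z = Y + (m3 ^ 2 + m3) * (m1 ^ 2 + m1))
    (hk : K ^ 2 + μ * K = (m0 ^ 2 + m0) * (m1 ^ 2 + m1)) (hθ : θ = 0 ∨ θ = 1)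
    (h0 : μ * s0 = K + μ * (m0 + 1 + θ) + (m0 ^ 2 + m0))
    (h2 : μ * s2 = K + μ * (m1 + θ) + (m1 ^ 2 + m1))
    (h1 : μ * Z * s1 = (μ * θ + K) * Z + μ * Y)
    (hμ0 : μ ≠ 0) : E1 m0 m1 m2 m3 s0 s1 s2 := by
  unfold E1
  apply mul_left_cancel₀ (pow_ne_zero 2 hμ0)
  have e1 : μ ^ 2 * ((1 + s1) * ((m3 + m0) * s0 + m3 * (1 + m0)) *
      ((m1 + m2) * s2 + m2 * (1 + m1))) = (1 + s1) *
        (((m3 + m0) * (μ * s0) + μ * (m3 * (1 + m0))) *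
        ((m1 + m2) * (μ * s2) + μ * (m2 * (1 + m1)))) := by ring
  have e2 : μ ^ 2 * (s1 * ((1 + m3 + m0) * s0 + m3 * m0) * ((1 + m1 + m2) * s2 + m1 * m2)) =
      s1 * (((1 + m3 + m0) * (μ * s0) + μ * (m3 * m0)) *
        ((1 + m1 + m2) * (μ * s2) + μ * (m1 * m2))) := by ring
  have e3 : ((m3 + m0) * (μ * s0) + μ * (m3 * (1 + m0))) *
        ((m1 + m2) * (μ * s2) + μ * (m2 * (1 + m1))) = μ * Z * s1 := by
    rw [h0, h1, h2]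
    linear_combination (norm := skip) (m3 + m0) * (m1 + m2) * hk
    subst hZ hY hμ
    clear * - hθ
    rcases hθ with rfl | rfl <;> grind
  have e4 : ((1 + m3 + m0) * (μ * s0) + μ * (m3 * m0)) *
        ((1 + m1 + m2) * (μ * s2) + μ * (m1 * m2)) = μ * Z * s1 + μ * Z := by
    rw [h0, h1, h2]
    linear_combination (norm := skip) (1 + m3 + m0) * (1 + m1 + m2) * hk
    subst hZ hY hμ
    clear * - hθ
    rcases hθ with rfl | rfl <;> grind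
  rw [e1, e2, e3, e4]
  ring

end Pool.Agent.Lib.MP_e79d62_co
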