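import Mathlib

set_option autoImplicit false

namespace Pool.Agent.Lib.MP_e79d62_co

open WeierstrassCurve WeierstrassCurve.Affine Polynomial

variable {k : Type} [Field k]

/-- the curve `y² + xy = x³ + a` -/
def W (a : k) : Affine k := ⟨1, 0, 0, 0, a⟩

theorem exists_frob [DecidableEq k] (σ : k →+* k) (a : k) (ha : σ a = a) :
    ∃ Φ : (W a).Point →+ (W a).Point,
      ∀ x y h, ∃ h', Φ (.some x y h) = .some (σ x) (σ y) h' := by
  let S := σ.eqLocusField (RingHom.id k)
  let W' : Affine S := ⟨1, 0, 0, 0, ⟨a, ha⟩⟩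
  have e : W'.baseChange k = W a := by
    ext <;> simp [W', W, WeierstrassCurve.baseChange]
    rfl
  let f : k →ₐ[S] k := { σ with commutes' := fun r => r.2 }
  rw [← e]
  exact ⟨Point.map f, fun x y h => ⟨_, Point.map_some f h⟩⟩

variable [CharP k 2]

omit [CharP k 2] in
theorem eqn_iff (a x y : k) : (W a).Equation x y ↔ y ^ 2 + x * y = x ^ 3 + a := by
  rw [equation_iff]
  simp [W]

omit [CharP k 2] in
theorem eqn_of {a x y : k} (h : (W a).Nonsingular x y) : y ^ 2 + x * y = x ^ 3 + a :=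
  (eqn_iff a x y).1 h.1

theorem nonsing {a x y : k} (ha : a ≠ 0) (h : y ^ 2 + x * y = x ^ 3 + a) :
    (W a).Nonsingular x y := by
  rw [nonsingular_iff]
  refine ⟨(eqn_iff a x y).2 h, ?_⟩
  simp only [W]
  by_contra hc
  push Not at hc
  apply ha
  grind

omit [CharP k 2] in
theorem some_congr {a x y x' y' : k} (h : (W a).Nonsingular x y) (h' : (W a).Nonsingular x' y')
    (hx : x = x') (hy : y = y') : Point.some x y h = Point.some x' y' h' := by
  subst hx hy; rfl

theorem neg_pt {a x y : k} (h : (W a).Nonsingular x y) :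
    ∃ h', -Point.some x y h = Point.some x (y + x) h' := by
  rw [Point.neg_some]
  have e : (W a).negY x y = y + x := by simp only [negY, W]; grind
  exact ⟨e ▸ (nonsingular_neg ..).2 h, some_congr _ _ rfl e⟩

variable [DecidableEq k]

theorem add_chord {a x₁ y₁ x₂ y₂ : k} (h₁ : (W a).Nonsingular x₁ y₁)
    (h₂ : (W a).Nonsingular x₂ y₂) (hx : x₁ ≠ x₂) :
    ∃ l x₃ y₃ h₃, l * (x₁ + x₂) = y₁ + y₂ ∧ x₃ = l ^ 2 + l + x₁ + x₂ ∧
      y₃ = l * (x₃ + x₁) + y₁ + x₃ ∧
      Point.some x₁ y₁ h₁ + Point.some x₂ y₂ h₂ = Point.some x₃ y₃ h₃ := by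
  refine ⟨(W a).slope x₁ x₂ y₁ y₂, _, _, _, ?_, ?_, ?_, Point.add_of_X_ne hx⟩
  · rw [slope_of_X_ne hx]
    have : x₁ - x₂ ≠ 0 := sub_ne_zero.2 hx
    field_simp
    grind
  · simp only [addX, W]; grind
  · simp only [addY, negY, negAddY, addX, W]; grind

theorem add_tangent {a x y : k} (h : (W a).Nonsingular x y) (hx : x ≠ 0) :
    ∃ l x₃ y₃ h₃, l * x = x ^ 2 + y ∧ x₃ = l ^ 2 + l ∧
      Point.some x y h + Point.some x y h = Point.some x₃ y₃ h₃ := by
  have e : (W a).negY x y = y + x := by simp only [negY, W]; grind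
  have hy : y ≠ (W a).negY x y := by
    rw [e]; intro h'; apply hx; grind
  refine ⟨(W a).slope x x y y, _, _, _, ?_, ?_, Point.add_self_of_Y_ne hy⟩
  · rw [slope_of_Y_ne rfl hy, e]
    have : y - (y + x) = x := by grind
    rw [this]
    simp only [W]
    field_simp
    grind
  · simp only [addX, W]; grind

theorem semaev {a x y c d z w : k} (hP : (W a).Nonsingular x y) (hQ : (W a).Nonsingular c d)
    (hR : (W a).Nonsingular z w) (hc : c ≠ 0)
    (h : (x * z + c * x + c * z) ^ 2 + c * x * z + a = 0) :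
    Point.some z w hR = Point.some x y hP + Point.some c d hQ ∨
    Point.some z w hR = -(Point.some x y hP + Point.some c d hQ) ∨
    Point.some z w hR = Point.some x y hP - Point.some c d hQ ∨
    Point.some z w hR = -(Point.some x y hP - Point.some c d hQ) := by
  have e1 := eqn_of hP
  have e2 := eqn_of hQ
  by_cases hx : x = c
  · obtain ⟨l, x₃, y₃, h₃, hl, hx3, hs⟩ := add_tangent hQ hc
    have hz : z = x₃ := by
      subst hx
      have : x ^ 2 * z = x ^ 2 * x₃ := by grind
      exact mul_left_cancel₀ (pow_ne_zero 2 hc) this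
    have h1 := (Point.X_eq_iff (h₁ := hR) (h₂ := h₃)).1 hz
    rw [← hs] at h1
    rcases (Point.X_eq_iff (h₁ := hP) (h₂ := hQ)).1 hx with h2 | h2 <;> rw [h2]
    · tauto
    · have : -Point.some c d hQ - Point.some c d hQ =
          -(Point.some c d hQ + Point.some c d hQ) := by abel
      rw [this, neg_neg]
      tauto
  · obtain ⟨hQ', hn⟩ := neg_pt hQ
    obtain ⟨l, x₃, y₃, h₃, hl, hx3, -, hs⟩ := add_chord hP hQ hx
    obtain ⟨l', x₄, y₄, h₄, hl', hx4, -, hs'⟩ := add_chord hP hQ' hx
    have hxc : x + c ≠ 0 := by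
      intro h'; apply hx; grind
    have key : (x + c) ^ 4 * ((z + x₃) * (z + x₄)) = 0 := by
      have a1 : (x + c) ^ 2 * x₃ = x * d + c * y + x * c * (x + c) := by grind
      have a2 : (x + c) ^ 2 * x₄ = x * (d + c) + c * y + x * c * (x + c) := by grind
      have : (x + c) ^ 4 * ((z + x₃) * (z + x₄)) =
        ((x + c) ^ 2 * z + (x + c) ^ 2 * x₃) * ((x + c) ^ 2 * z + (x + c) ^ 2 * x₄) := by ring
      rw [this, a1, a2]
      clear a1 a2 this hl hl' hx3 hx4
      grind
    rw [sub_eq_add_neg, hn, hs, hs']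
    rcases mul_eq_zero.1 ((mul_eq_zero.1 key).resolve_left (pow_ne_zero 4 hxc)) with h5 | h5
    · have := (Point.X_eq_iff (h₁ := hR) (h₂ := h₃)).1 (by grind)
      tauto
    · have := (Point.X_eq_iff (h₁ := hR) (h₂ := h₄)).1 (by grind)
      tauto

/-- Lang's theorem for the curve `W a` and the twisted Frobenius maps `P ↦ Φ P ∓ P`. -/
theorem lang [IsAlgClosed k] {n : ℕ} (hn : 1 ≤ n) {a : k} (ha : a ≠ 0)
    (Φ : (W a).Point →+ (W a).Point)
    (hΦ : ∀ x y h, ∃ h', Φ (.some x y h) = .some (x ^ 2 ^ n) (y ^ 2 ^ n) h')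
    {c d : k} (hQ : (W a).Nonsingular c d) (hc : c ≠ 0) (ε : ℤ) (hε : ε = 1 ∨ ε = -1) :
    ∃ P, Φ P = ε • P + Point.some c d hQ := by
  classical
  set q := 2 ^ n with hq
  have hq2 : 2 ≤ q := by
    calc 2 = 2 ^ 1 := rfl
      _ ≤ 2 ^ n := Nat.pow_le_pow_right (by norm_num) hn
  have hq0 : (q : k) = 0 := by
    rw [hq, Nat.cast_pow, show ((2 : ℕ) : k) = 0 from CharP.cast_eq_zero k 2, zero_pow (by omega)]
  have h2 : (2 : k) = 0 := CharP.cast_eq_zero k 2
  set Q := Point.some c d hQ with hQdef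
  have hy : ∀ x : k, ∃ y, y ^ 2 + x * y = x ^ 3 + a := by
    intro x
    obtain ⟨y, hy⟩ := IsAlgClosed.exists_root (X ^ 2 + C x * X - C (x ^ 3 + a)) (by
      have : (X ^ 2 + C x * X - C (x ^ 3 + a)).degree = 2 := by compute_degree!
      rw [this]; norm_num)
    refine ⟨y, ?_⟩
    simp only [IsRoot.def, eval_sub, eval_add, eval_pow, eval_X, eval_mul, eval_C] at hy
    linear_combination hy
  choose yy hyy using hy
  let pt : k → (W a).Point := fun x => .some x (yy x) (nonsing ha (hyy x))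
  let f : k[X] := (X ^ (q + 1) + C c * X + C c * X ^ q) ^ 2 + C c * X ^ (q + 1) + C a
  have hdeg : f.natDegree = 2 * q + 2 := by
    have h1 : (X ^ (q + 1) + C c * X + C c * X ^ q : k[X]).natDegree = q + 1 := by
      compute_degree!
      all_goals simp [show ¬ (q = 0) by omega]
    have h3 : ((X ^ (q + 1) + C c * X + C c * X ^ q : k[X]) ^ 2).natDegree = 2 * q + 2 := by
      rw [natDegree_pow, h1]; ring
    have h4 : (C c * X ^ (q + 1) + C a : k[X]).natDegree < 2 * q + 2 := by
      refine lt_of_le_of_lt (b := q + 1) (by compute_degree) (by omega)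
    simp only [f]
    rw [add_assoc, natDegree_add_eq_left_of_natDegree_lt (by rw [h3]; exact h4), h3]
  have hder : derivative f = C c * X ^ q := by
    have h2' : (2 : k[X]) = 0 := by
      rw [show (2 : k[X]) = C 2 from rfl, h2, map_zero]
    simp only [f, derivative_add, derivative_sq, derivative_C_mul, derivative_X_pow, derivative_C,
      h2, map_zero, zero_mul, Nat.cast_add, hq0, Nat.cast_one, zero_add, add_zero, map_one,
      one_mul, Nat.add_sub_cancel]
  have hf0 : f ≠ 0 := by
    intro h0; rw [h0, natDegree_zero] at hdeg; omega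
  have hsep : f.Separable := by
    rw [Separable, hder]
    refine (IsCoprime.mul_right ?_ (IsCoprime.pow_right ?_))
    · exact ⟨0, C c⁻¹, by rw [zero_mul, zero_add, ← C_mul, inv_mul_cancel₀ hc, C_1]⟩
    · refine ((Polynomial.irreducible_X.coprime_iff_not_dvd).2 ?_).symm
      rw [X_dvd_iff, coeff_zero_eq_eval_zero]
      simp [f, show q ≠ 0 by omega, ha]
  have hcard : f.roots.toFinset.card = 2 * q + 2 := by
    rw [Multiset.toFinset_card_of_nodup (nodup_roots hsep), ← hdeg]
    exact (IsAlgClosed.splits f).natDegree_eq_card_roots.symm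
  have dich : ∀ x ∈ f.roots.toFinset, ∃ P, (P = pt x ∨ P = -pt x) ∧
      (Φ P = P + Q ∨ Φ P = -P + Q) := by
    intro x hx
    rw [Multiset.mem_toFinset, mem_roots hf0] at hx
    obtain ⟨h', e⟩ := hΦ x (yy x) (nonsing ha (hyy x))
    have := semaev (nonsing ha (hyy x)) hQ h' hc (by
      simp only [IsRoot.def, f, eval_add, eval_pow, eval_mul, eval_C, eval_X] at hx
      linear_combination hx)
    rw [← e] at this
    change Φ (pt x) = pt x + Q ∨ Φ (pt x) = -(pt x + Q) ∨ Φ (pt x) = pt x - Q ∨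
      Φ (pt x) = -(pt x - Q) at this
    rcases this with h | h | h | h
    · exact ⟨pt x, Or.inl rfl, Or.inl h⟩
    · exact ⟨-pt x, Or.inr rfl, Or.inr (by rw [map_neg, h]; abel)⟩
    · exact ⟨-pt x, Or.inr rfl, Or.inl (by rw [map_neg, h]; abel)⟩
    · exact ⟨pt x, Or.inl rfl, Or.inr (by rw [h]; abel)⟩
  by_contra hcon
  push Not at hcon
  have hall : ∀ x ∈ f.roots.toFinset, ∃ P, (P = pt x ∨ P = -pt x) ∧ Φ P = (-ε) • P + Q := by
    intro x hx
    obtain ⟨P, h1, h3⟩ := dich x hx
    refine ⟨P, h1, ?_⟩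
    have := hcon P
    rcases hε with rfl | rfl
    · simp only [one_smul, neg_smul] at this ⊢; tauto
    · simp only [one_smul, neg_smul, neg_neg] at this ⊢; tauto
  choose! g hg1 hg2 using hall
  obtain ⟨x₀, hx₀⟩ : f.roots.toFinset.Nonempty := Finset.card_pos.1 (by omega)
  let G : Finset k := (X ^ q - X : k[X]).roots.toFinset
  have hG0 : (X ^ q - X : k[X]) ≠ 0 := FiniteField.X_pow_card_sub_X_ne_zero k (by omega)
  have hG : G.card ≤ q := by
    refine (Multiset.toFinset_card_le _).trans ((card_roots' _).trans (le_of_eq ?_))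
    exact FiniteField.X_pow_card_sub_X_natDegree_eq k (by omega)
  let B : Finset (W a).Point := insert 0 (G.image pt ∪ G.image (fun x => -pt x))
  have hB : B.card ≤ 2 * q + 1 := by
    refine (Finset.card_insert_le _ _).trans ?_
    have := Finset.card_union_le (G.image pt) (G.image (fun x => -pt x))
    have := Finset.card_image_le (s := G) (f := pt)
    have := Finset.card_image_le (s := G) (f := fun x => -pt x)
    omega
  have hmap : ∀ x ∈ f.roots.toFinset, g x - g x₀ ∈ B := by
    intro x hx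
    have h1 : Φ (g x - g x₀) = (-ε) • (g x - g x₀) := by
      rw [map_sub, hg2 x hx, hg2 x₀ hx₀, smul_sub]; abel
    generalize g x - g x₀ = D at h1
    rcases D with _ | ⟨u, v, huv⟩
    · exact Finset.mem_insert_self _ _
    · obtain ⟨h', e⟩ := hΦ u v huv
      have hu : u ^ q = u := by
        rw [e] at h1
        refine (Point.X_eq_iff (h₁ := h') (h₂ := huv)).2 ?_
        rcases hε with rfl | rfl
        · right; simpa using h1
        · left; simpa using h1
      have huG : u ∈ G := by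
        simp [G, mem_roots hG0, hu]
      refine Finset.mem_insert_of_mem (Finset.mem_union.2 ?_)
      rcases (Point.X_eq_iff (h₁ := huv) (h₂ := nonsing ha (hyy u))).1 rfl with h3 | h3
      · exact Or.inl (Finset.mem_image.2 ⟨u, huG, h3.symm⟩)
      · exact Or.inr (Finset.mem_image.2 ⟨u, huG, h3.symm⟩)
  have hinj : Set.InjOn (fun x => g x - g x₀) f.roots.toFinset := by
    intro x hx x' hx' h
    have h1 : g x = g x' := sub_left_injective h
    refine (Point.X_eq_iff (h₁ := nonsing ha (hyy x)) (h₂ := nonsing ha (hyy x'))).2 ?_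
    change pt x = pt x' ∨ pt x = -pt x'
    rcases hg1 x hx with h3 | h3 <;> rcases hg1 x' hx' with h4 | h4 <;> rw [h3, h4] at h1
    · exact Or.inl h1
    · exact Or.inr h1
    · exact Or.inr (by rw [← h1, neg_neg])
    · exact Or.inl (neg_injective h1)
  have := Finset.card_le_card_of_injOn _ hmap hinj
  omega

end Pool.Agent.Lib.MP_e79d62_co
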