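import Mathlib
import Pool.Agent.Lib.MP_e79d62_co.Curve

set_option autoImplicit false

namespace Pool.Agent.Lib.MP_e79d62_co

open WeierstrassCurve WeierstrassCurve.Affine Polynomial

variable {k : Type} [Field k] [CharP k 2]

/-- coordinates on the model `(S² + S)(S'² + S') = α` -/
def Coord (α : k) (P : (W (α ^ 4)).Point) (S S' : k) : Prop :=
  ∃ x y h, P = .some x y h ∧ x ≠ 0 ∧ S * (x + α) = α ∧ S' * x = y + α ^ 2

variable {α : k}

theorem Coord.curve (hα : α ≠ 0) {P : (W (α ^ 4)).Point} {S S' : k} (h : Coord α P S S') :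
    (S ^ 2 + S) * (S' ^ 2 + S') = α := by
  obtain ⟨x, y, h, -, hx, h1, h2⟩ := h
  have e := eqn_of h
  have hxa : x + α ≠ 0 := by
    intro h'; rw [h', mul_zero] at h1; exact hα h1.symm
  have a1 : (S ^ 2 + S) * (x + α) ^ 2 = α * x := by grind
  have a2 : (S' ^ 2 + S') * x ^ 2 = x * (x + α) ^ 2 := by grind
  apply mul_right_cancel₀ (mul_ne_zero (pow_ne_zero 2 hxa) (pow_ne_zero 2 hx))
  calc (S ^ 2 + S) * (S' ^ 2 + S') * ((x + α) ^ 2 * x ^ 2)
      = ((S ^ 2 + S) * (x + α) ^ 2) * ((S' ^ 2 + S') * x ^ 2) := by ring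
    _ = _ := by rw [a1, a2]; ring

theorem coord_exists (hα : α ≠ 0) {S S' : k} (h : (S ^ 2 + S) * (S' ^ 2 + S') = α) :
    ∃ P, Coord α P S S' := by
  have hS : S ≠ 0 := by rintro rfl; apply hα; rw [← h]; ring
  have hS1 : S + 1 ≠ 0 := by
    intro h'; apply hα; rw [← h, show S ^ 2 + S = S * (S + 1) by ring, h']; ring
  obtain ⟨x, hx⟩ : ∃ x, x * S = α * (S + 1) := ⟨α * (S + 1) / S, div_mul_cancel₀ _ hS⟩
  have hx0 : x ≠ 0 := by
    rintro rfl
    exact mul_ne_zero hα hS1 (by rw [← hx, zero_mul])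
  refine ⟨_, x, α ^ 2 + x * S', nonsing (pow_ne_zero 4 hα) ?_, rfl, hx0, by grind, by grind⟩
  have : S ^ 2 * (x * (S' ^ 2 + S')) = S ^ 2 * (x + α) ^ 2 := by grind
  have := mul_left_cancel₀ (pow_ne_zero 2 hS) this
  grind

theorem Coord.neg {P : (W (α ^ 4)).Point} {S S' : k} (h : Coord α P S S') :
    Coord α (-P) S (S' + 1) := by
  obtain ⟨x, y, h, rfl, hx, h1, h2⟩ := h
  obtain ⟨h', e⟩ := neg_pt h
  exact ⟨x, y + x, h', e, hx, h1, by grind⟩

omit [CharP k 2] in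
theorem Coord.unique (hα : α ≠ 0) {P P' : (W (α ^ 4)).Point} {S S' : k} (h : Coord α P S S')
    (h' : Coord α P' S S') : P = P' := by
  obtain ⟨x, y, h, rfl, hx, h1, h2⟩ := h
  obtain ⟨x', y', h', rfl, hx', h1', h2'⟩ := h'
  have hS : S ≠ 0 := by rintro rfl; apply hα; rw [← h1]; ring
  have hxx : x = x' := add_right_cancel (mul_left_cancel₀ hS (h1.trans h1'.symm))
  subst hxx
  exact some_congr _ _ rfl (add_right_cancel (h2.symm.trans h2'))

omit [CharP k 2] in
theorem Coord.func (hα : α ≠ 0) {P : (W (α ^ 4)).Point} {S S' D D' : k} (h : Coord α P S S')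
    (h' : Coord α P D D') : S = D ∧ S' = D' := by
  obtain ⟨x, y, h, rfl, hx, h1, h2⟩ := h
  obtain ⟨x', y', h', e, hx', h1', h2'⟩ := h'
  obtain ⟨rfl, rfl⟩ := Point.some.inj e
  have hxa : x + α ≠ 0 := by
    intro h'; rw [h', mul_zero] at h1; exact hα h1.symm
  exact ⟨mul_right_cancel₀ hxa (h1.trans h1'.symm), mul_right_cancel₀ hx (h2.trans h2'.symm)⟩

theorem nonsing_T (hα : α ≠ 0) : (W (α ^ 4)).Nonsingular α (α ^ 2) :=
  nonsing (pow_ne_zero 4 hα) (by ring)

variable [DecidableEq k]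

theorem Coord.subT (hα : α ≠ 0) {P : (W (α ^ 4)).Point} {S S' : k} (h : Coord α P S S') :
    Coord α (P - .some α (α ^ 2) (nonsing_T hα)) S' (S + 1) := by
  have hc := h.curve hα
  obtain ⟨x, y, h, rfl, hx, h1, h2⟩ := h
  have e := eqn_of h
  have hxa : x + α ≠ 0 := by
    intro h'; rw [h', mul_zero] at h1; exact hα h1.symm
  have hxa' : x ≠ α := by intro h'; apply hxa; grind
  obtain ⟨h', e'⟩ := neg_pt (nonsing_T hα)
  obtain ⟨l, x₃, y₃, h₃, hl, hx3, hy3, hs⟩ := add_chord h h' hxa'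
  have a1 : (x₃ + α) * (x + α) ^ 2 = α * (x + y + α ^ 2) := by grind
  have a2 : S' * (x₃ + α) = α := by
    apply mul_right_cancel₀ (mul_ne_zero hx (pow_ne_zero 2 hxa))
    have : S' * (x₃ + α) * (x * (x + α) ^ 2) = (S' * x) * ((x₃ + α) * (x + α) ^ 2) := by ring
    rw [this, h2, a1]
    clear * - e
    grind
  rw [sub_eq_add_neg, e', hs]
  refine ⟨x₃, y₃, h₃, rfl, ?_, a2, ?_⟩
  · rintro h0
    rw [h0, zero_add] at a2
    have : S' = 1 := mul_right_cancel₀ hα (by rw [a2, one_mul])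
    apply hα
    rw [← hc, this]
    grind
  · apply mul_right_cancel₀ hxa
    have b1 : (S + 1) * x₃ * (x + α) = x * x₃ := by grind
    have b2 : y₃ = l * (x₃ + α) + α ^ 2 + α + x₃ := by grind
    rw [b1, b2]
    apply mul_right_cancel₀ (pow_ne_zero 2 hxa)
    have b3 : x * x₃ * (x + α) ^ 2 = x * ((x₃ + α) * (x + α) ^ 2) + x * α * (x + α) ^ 2 := by
      grind
    have b4 : (l * (x₃ + α) + α ^ 2 + α + x₃ + α ^ 2) * (x + α) * (x + α) ^ 2 =
        (l * (x + α) + (x + α)) * ((x₃ + α) * (x + α) ^ 2) := by grind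
    rw [b3, b4, a1, hl]
    clear b1 b2 b3 b4 a1 a2 hl hx3 hy3 h1 h2 hc
    grind

omit [CharP k 2] in
theorem Coord.frob {σ : k →+* k} (hσ : σ α = α) {Φ : (W (α ^ 4)).Point →+ (W (α ^ 4)).Point}
    (hΦ : ∀ x y h, ∃ h', Φ (.some x y h) = .some (σ x) (σ y) h')
    {P : (W (α ^ 4)).Point} {S S' : k} (h : Coord α P S S') : Coord α (Φ P) (σ S) (σ S') := by
  obtain ⟨x, y, h, rfl, hx, h1, h2⟩ := h
  obtain ⟨h', e⟩ := hΦ x y h
  refine ⟨σ x, σ y, h', e, (map_ne_zero σ).2 hx, ?_, ?_⟩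
  · simpa [hσ] using congrArg σ h1
  · simpa [hσ] using congrArg σ h2

theorem Coord.double (hα : α ≠ 0) {Q : (W (α ^ 4)).Point} {D D' S₃ S₃' : k}
    (hQ : Coord α Q D D') (hR : Coord α (Q + Q) S₃ S₃') :
    S₃ * ((D ^ 2 + D) + (D' ^ 2 + D')) = D ^ 2 + D := by
  have hc := hQ.curve hα
  obtain ⟨x, y, h, rfl, hx, h1, h2⟩ := hQ
  obtain ⟨l, x₃, y₃, h₃, hl, hx3, hs⟩ := add_tangent h hx
  obtain ⟨x', y', h', e', -, h3, -⟩ := hR
  rw [hs] at e'
  obtain ⟨rfl, rfl⟩ := Point.some.inj e'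
  have e := eqn_of h
  have hxa : x + α ≠ 0 := by
    intro h'; rw [h', mul_zero] at h1; exact hα h1.symm
  have a1 : (D ^ 2 + D) * (x + α) ^ 2 = α * x := by grind
  have a2 : (D' ^ 2 + D') * x = (x + α) ^ 2 := by
    apply mul_right_cancel₀ hx; grind
  have a3 : x₃ * x ^ 2 = (x + α) ^ 4 := by grind
  apply mul_right_cancel₀ (mul_ne_zero hx (pow_ne_zero 2 hxa))
  calc S₃ * ((D ^ 2 + D) + (D' ^ 2 + D')) * (x * (x + α) ^ 2)
      = S₃ * (((D ^ 2 + D) * (x + α) ^ 2) * x + ((D' ^ 2 + D') * x) * (x + α) ^ 2) := by ring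
    _ = S₃ * (x₃ + α) * x ^ 2 := by rw [a1, a2]; linear_combination (-S₃) * a3
    _ = ((D ^ 2 + D) * (x + α) ^ 2) * x := by rw [h3, a1]; ring
    _ = _ := by ring

theorem Coord.add (hα : α ≠ 0) {P Q : (W (α ^ 4)).Point} {S S' D D' S₃ S₃' : k}
    (hP : Coord α P S S') (hQ : Coord α Q D D') (hR : Coord α (P + Q) S₃ S₃') :
    S₃ * (S + D + S' + D') = (S + D) * (S' + D' + 1) := by
  have hc := hP.curve hα
  have hc' := hQ.curve hα
  obtain ⟨x, y, h, rfl, hx, h1, h2⟩ := hP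
  obtain ⟨c, d, h', rfl, hc0, h1', h2'⟩ := hQ
  obtain ⟨x', y', h'', e', -, h3, -⟩ := hR
  have e1 := eqn_of h
  have e2 := eqn_of h'
  have hxa : x + α ≠ 0 := by
    intro h'; rw [h', mul_zero] at h1; exact hα h1.symm
  have hS : S ≠ 0 := by rintro rfl; apply hα; rw [← h1]; ring
  have hD : D ≠ 0 := by rintro rfl; apply hα; rw [← h1']; ring
  by_cases hxc : x = c
  · subst hxc
    have hSD : S = D := mul_right_cancel₀ hxa (h1.trans h1'.symm)
    rcases Y_eq_of_X_eq h.1 h'.1 rfl with h4 | h4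
    · subst h4
      have : S' = D' := mul_right_cancel₀ hx (h2.trans h2'.symm)
      grind
    · rw [Point.add_of_Y_eq rfl h4] at e'
      exact absurd e'.symm (Point.some_ne_zero _)
  · obtain ⟨l, x₃, y₃, h₃, hl, hx3, -, hs⟩ := add_chord h h' hxc
    rw [hs] at e'
    obtain ⟨rfl, rfl⟩ := Point.some.inj e'
    have hSD : S + D ≠ 0 := by
      intro h0
      apply hxc
      have : S = D := by grind
      subst this
      exact add_right_cancel (mul_left_cancel₀ hS (h1.trans h1'.symm))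
    have a1 : (x + c) ^ 2 * x₃ = x * d + c * y + x * c * (x + c) := by grind
    have hy : y = S' * x + α ^ 2 := by grind
    have hd : d = D' * c + α ^ 2 := by grind
    have hx' : x * S = α * (S + 1) := by grind
    have hc'' : c * D = α * (D + 1) := by grind
    have a2 : (S + D) ^ 2 * (x₃ + α) =
        α * (S + D) + (S ^ 2 + S) * (D ^ 2 + D) * (S' + D') := by
      apply mul_left_cancel₀ (pow_ne_zero 2 hα)
      have b1 : (x + c) * (S * D) = α * (S + D) := by grind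
      have b2 : x * c * (S * D) = α ^ 2 * ((S + 1) * (D + 1)) := by
        calc x * c * (S * D) = (x * S) * (c * D) := by ring
          _ = _ := by rw [hx', hc'']; ring
      have b3 : (x + c) ^ 2 * x₃ = α ^ 2 * (x + c) + x * c * (S' + D') + x * c * (x + c) := by
        rw [a1, hy, hd]; ring
      calc α ^ 2 * ((S + D) ^ 2 * (x₃ + α))
          = (α * (S + D)) ^ 2 * x₃ + α ^ 3 * (S + D) ^ 2 := by ring
        _ = ((x + c) ^ 2 * x₃) * (S * D) ^ 2 + α ^ 3 * (S + D) ^ 2 := by rw [← b1]; ring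
        _ = α ^ 2 * ((x + c) * (S * D)) * (S * D) + (x * c * (S * D)) * (S * D) * (S' + D') +
            (x * c * (S * D)) * ((x + c) * (S * D)) + α ^ 3 * (S + D) ^ 2 := by rw [b3]; ring
        _ = _ := by
          rw [b1, b2]
          clear b1 b2 b3 a1 hy hd hx' hc'' e1 e2 hl hx3 h1 h2 h3 h1' h2' hc hc'
          grind
    have a3 : S₃ * (α * (S + D) + (S ^ 2 + S) * (D ^ 2 + D) * (S' + D')) = α * (S + D) ^ 2 := by
      rw [← a2]; linear_combination (S + D) ^ 2 * h3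
    have a4 : (S ^ 2 + S) * (D ^ 2 + D) * (S' + D') * (S' + D' + 1) =
        α * (S + D) * (S + D + 1) := by
      clear a1 a2 a3 hy hd hx' hc'' e1 e2 hl hx3 h1 h2 h3 h1' h2'
      grind
    apply mul_left_cancel₀ (mul_ne_zero hα hSD)
    have a5 : α * (S + D) * (S₃ * (S + D + S' + D')) =
        S₃ * (α * (S + D) * (S' + D' + 1) + α * (S + D) * (S + D + 1)) := by
      clear a1 a2 a3 a4 hy hd hx' hc'' e1 e2 hl hx3 h1 h2 h3 h1' h2' hc hc'
      grind
    rw [a5, ← a4]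
    linear_combination (S' + D' + 1) * a3

theorem coord_total (hα : α ≠ 0) {σ : k →+* k} (hσ : σ α = α)
    {Φ : (W (α ^ 4)).Point →+ (W (α ^ 4)).Point}
    (hΦ : ∀ x y h, ∃ h', Φ (.some x y h) = .some (σ x) (σ y) h')
    {P : (W (α ^ 4)).Point} (hP : Φ (Φ P) ≠ P) : ∃ S S', Coord α P S S' := by
  have hfix : Φ P ≠ P := fun h => hP (by rw [h, h])
  rcases P with _ | ⟨x, y, h⟩
  · exact absurd (map_zero Φ) hfix
  · obtain ⟨h', e⟩ := hΦ x y h
    have e1 := eqn_of h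
    have hx : x ≠ 0 := by
      rintro rfl
      apply hfix
      have : y = α ^ 2 := by
        have : (y + α ^ 2) ^ 2 = 0 := by grind
        have := pow_eq_zero_iff (two_ne_zero) |>.1 this
        grind
      rw [e]
      exact some_congr _ _ (map_zero σ) (by rw [this, map_pow, hσ])
    have hxa : x + α ≠ 0 := by
      intro h0
      have hxa : x = α := by grind
      subst hxa
      apply hfix
      rw [e]
      refine some_congr _ _ hσ ?_
      have : (y + x ^ 2) * (y + x ^ 2 + x) = 0 := by grind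
      rcases mul_eq_zero.1 this with h1 | h1
      · have : y = x ^ 2 := by grind
        rw [this, map_pow, hσ]
      · have : y = x ^ 2 + x := by grind
        rw [this, map_add, map_pow, hσ]
    exact ⟨α / (x + α), (y + α ^ 2) / x, x, y, h, rfl, hx, div_mul_cancel₀ _ hxa,
      div_mul_cancel₀ _ hx⟩

end Pool.Agent.Lib.MP_e79d62_co
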