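import Mathlib
import Pool.Agent.Lib.MP_e79d62_co.Solve
import Pool.Agent.Lib.MP_e79d62_co.Alg

set_option autoImplicit false

namespace Pool.Agent.Lib.MP_e79d62_co

open WeierstrassCurve WeierstrassCurve.Affine Polynomial

variable {k : Type} [Field k] [CharP k 2]

theorem d_eq (m0 m1 m2 m3 ν k0 k1 : k) (hν : (1 + m0 + m1 + m2 + m3) * ν = 1)
    (h0 : k0 ^ 2 + k0 = (m3 ^ 2 + m3) * (m0 ^ 2 + m0) * ν ^ 2)
    (h1 : k1 ^ 2 + k1 = (m0 ^ 2 + m0) * (m1 ^ 2 + m1) * ν ^ 2) :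
    (k0 + k1 + m0 + (m0 ^ 2 + m0) * ν) ^ 2 + (k0 + k1 + m0 + (m0 ^ 2 + m0) * ν) =
      (m0 ^ 2 + m0) * (m2 ^ 2 + m2) * ν ^ 2 := by
  linear_combination (norm := skip) h0 + h1 +
    (m0 ^ 2 + m0) * ((1 + m0 + m1 + m2 + m3) * ν + 1 + ν) * hν
  clear * -
  grind

theorem eta_eq (m0 m1 m2 m3 ν k0 k1 k2 k3 : k) (hν : (1 + m0 + m1 + m2 + m3) * ν = 1)
    (h0 : k0 ^ 2 + k0 = (m3 ^ 2 + m3) * (m0 ^ 2 + m0) * ν ^ 2)
    (h1 : k1 ^ 2 + k1 = (m0 ^ 2 + m0) * (m1 ^ 2 + m1) * ν ^ 2)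
    (h2 : k2 ^ 2 + k2 = (m1 ^ 2 + m1) * (m2 ^ 2 + m2) * ν ^ 2)
    (h3 : k3 ^ 2 + k3 = (m2 ^ 2 + m2) * (m3 ^ 2 + m3) * ν ^ 2) :
    k0 + k1 + k2 + k3 + (m0 + m2) * (m1 + m3) * ν = 0 ∨
      k0 + k1 + k2 + k3 + (m0 + m2) * (m1 + m3) * ν = 1 := by
  have : (k0 + k1 + k2 + k3 + (m0 + m2) * (m1 + m3) * ν) *
      (k0 + k1 + k2 + k3 + (m0 + m2) * (m1 + m3) * ν + 1) = 0 := by
    linear_combination (norm := skip) h0 + h1 + h2 + h3 + (m0 + m2) * (m1 + m3) * ν * hν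
    clear * -
    grind
  rcases mul_eq_zero.1 this with h | h
  · exact Or.inl h
  · right
    clear * - h
    grind

theorem d13_eq (m0 m1 m2 m3 ν k0 k1 k2 k3 : k) (hν : (1 + m0 + m1 + m2 + m3) * ν = 1) :
    k3 + k0 + m3 + (m3 ^ 2 + m3) * ν = (k1 + k2 + m1 + (m1 ^ 2 + m1) * ν) +
      (k0 + k1 + k2 + k3 + (m0 + m2) * (m1 + m3) * ν) := by
  linear_combination (norm := skip) (m1 + m3) * hν
  clear * -
  grind

omit [CharP k 2] in
theorem exists_as [IsAlgClosed k] (c : k) : ∃ x : k, x ^ 2 + x = c := by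
  obtain ⟨y, hy⟩ := IsAlgClosed.exists_root (X ^ 2 + X - C c) (by
    have : (X ^ 2 + X - C c).degree = 2 := by compute_degree!
    rw [this]; norm_num)
  refine ⟨y, ?_⟩
  simp only [IsRoot.def, eval_sub, eval_add, eval_pow, eval_X, eval_C] at hy
  linear_combination hy

/-- The geometric step. -/
theorem exists_S [IsAlgClosed k] {n : ℕ} (hn : 1 ≤ n) (σ : k →+* k) (hσ : ∀ x, σ x = x ^ 2 ^ n)
    {α d0 d1 η : k} (hα : α ≠ 0) (hσα : σ α = α) (hη : η = 0 ∨ η = 1)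
    (hd : (d0 ^ 2 + d0) * (d1 ^ 2 + d1) = α) (h01 : σ d0 = d1) (h30 : σ (d1 + η) = d0) :
    ∃ S0 S1 S2 S3 : k, σ S0 = S1 ∧ σ S1 = S2 ∧ σ S2 = S3 ∧ σ S3 = S0 + 1 ∧
      (S0 ^ 2 + S0) * (S2 ^ 2 + S2) = α ∧
      S1 * ((S0 + d0 + 1) + (S2 + d1)) = (S0 + d0 + 1) * (S2 + d1 + 1) ∧
      ∀ θ : k, (θ = 0 ∨ θ = 1) → S0 + d0 + 1 = θ → S2 + d1 = θ →
        (S1 + θ) * ((d0 ^ 2 + d0) + (d1 ^ 2 + d1)) = d0 ^ 2 + d0 := by
  classical
  have h2 : (2 : k) = 0 := CharP.cast_eq_zero k 2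
  obtain ⟨Φ, hΦ⟩ := exists_frob σ (α ^ 4) (by rw [map_pow, hσα])
  obtain ⟨Q, hQ⟩ := coord_exists (S := d0 + 1) (S' := d1 + η) hα (by
    rw [← hd]
    clear * - hη
    rcases hη with rfl | rfl <;> grind)
  obtain ⟨ε, hε, hneg⟩ : ∃ ε : ℤ, (ε = 1 ∨ ε = -1) ∧
      ∀ (P : (W (α ^ 4)).Point) (S S' : k), Coord α P S S' → Coord α (ε • P) S (S' + η) := by
    rcases hη with rfl | rfl
    · exact ⟨1, Or.inl rfl, fun P S S' h => by simpa using h⟩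
    · exact ⟨-1, Or.inr rfl, fun P S S' h => by simpa using h.neg⟩
  have hεε : ∀ P : (W (α ^ 4)).Point, ε • ε • P = P := by
    intro P
    rcases hε with rfl | rfl <;> simp
  set T : (W (α ^ 4)).Point := .some α (α ^ 2) (nonsing_T hα) with hT
  have hεQ : Coord α (ε • Q) (d0 + 1) d1 := by
    have := hneg _ _ _ hQ
    rwa [show d1 + η + η = d1 by linear_combination η * h2] at this
  have hΦQ : Coord α (-Φ Q - T) (d0 + 1) d1 := by
    have := ((hQ.frob hσα hΦ).neg).subT hα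
    rwa [h30, map_add, h01, map_one, show d1 + 1 + 1 = d1 by linear_combination h2] at this
  have hsum : -Φ Q - T = ε • Q := hΦQ.unique hα hεQ
  obtain ⟨P, hP⟩ : ∃ P, Φ P = ε • P + Q := by
    obtain ⟨c, d, hcd, rfl, hc, -⟩ := hQ
    exact lang hn (pow_ne_zero 4 hα) Φ (by simpa only [hσ] using hΦ) hcd hc ε hε
  have hPP : Φ (Φ P) = P - T := by
    rw [hP, map_add, map_zsmul, hP, smul_add, hεε, ← hsum]
    abel
  obtain ⟨S, S', hS⟩ := coord_total hα hσα hΦ (P := P) (by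
    rw [hPP, hT]
    intro h
    exact Point.some_ne_zero _ (sub_eq_self.1 h))
  have hS1 := hS.frob hσα hΦ
  have hS2 := hS1.frob hσα hΦ
  rw [hPP] at hS2
  obtain ⟨e1, e2⟩ := hS2.func hα (hS.subT hα)
  have hεP := hneg _ _ _ hS
  refine ⟨S, σ S, S', σ S', rfl, e1, rfl, e2, hS.curve hα, ?_, ?_⟩
  · have := hεP.add hα hQ (hP ▸ hS1)
    linear_combination (norm := skip) this
    clear * -
    grind
  · intro θ hθ a1 a2
    have hd' : (d0 + 1) ^ 2 + (d0 + 1) = d0 ^ 2 + d0 := by clear * -; grind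
    have hd'' : (d1 + η) ^ 2 + (d1 + η) = d1 ^ 2 + d1 := by
      clear * - hη
      rcases hη with rfl | rfl <;> grind
    rcases hθ with rfl | rfl
    · have b1 : S = d0 + 1 := by clear * - a1; grind
      have b2 : S' + η = d1 + η := by clear * - a2; grind
      rw [b1, b2] at hεP
      have b3 := hεP.unique hα hQ
      rw [hP, b3] at hS1
      have := hQ.double hα hS1
      rw [hd', hd''] at this
      rw [add_zero, this]
    · have b0 := (hεP.subT hα).subT hα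
      have b1 : S + 1 = d0 + 1 := by clear * - a1; grind
      have b2 : S' + η + 1 = d1 + η := by clear * - a2; grind
      rw [b1, b2] at b0
      have b3 := b0.unique hα hQ
      have b4 := (hS1.subT hα).subT hα
      rw [hP, show ε • P + Q - T - T = Q + Q by rw [← b3]; abel] at b4
      have := hQ.double hα b4
      rwa [hd', hd''] at this

theorem exists_s [IsAlgClosed k] {n : ℕ} (hn : 1 ≤ n) (σ : k →+* k) (hσ : ∀ x, σ x = x ^ 2 ^ n)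
    (m0 m1 m2 m3 : k) (h01 : σ m0 = m1) (h12 : σ m1 = m2) (h23 : σ m2 = m3) (h30 : σ m3 = m0)
    (he : m0 ^ 2 + m0 ≠ 0) (hμ0 : 1 + m0 + m1 + m2 + m3 ≠ 0) :
    ∃ s0 s1 s2 s3 : k, σ s0 = s1 ∧ σ s1 = s2 ∧ σ s2 = s3 ∧ σ s3 = s0 + 1 ∧
      E1 m0 m1 m2 m3 s0 s1 s2 := by
  have h2 : (2 : k) = 0 := CharP.cast_eq_zero k 2
  obtain ⟨μ, hμ⟩ : ∃ μ, μ = 1 + m0 + m1 + m2 + m3 := ⟨_, rfl⟩
  rw [← hμ] at hμ0
  obtain ⟨ν, hν⟩ : ∃ ν, μ * ν = 1 := ⟨μ⁻¹, mul_inv_cancel₀ hμ0⟩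
  have hν0 : ν ≠ 0 := by rintro rfl; simp at hν
  have hσμ : σ μ = μ := by
    rw [hμ]; simp only [map_add, map_one, h01, h12, h23, h30]; ring
  have hσν : σ ν = ν := by
    apply mul_left_cancel₀ hμ0
    rw [hν, ← hσμ, ← map_mul, hν, map_one]
  have he1 : m1 ^ 2 + m1 ≠ 0 := by
    have := (map_ne_zero σ).2 he
    rwa [map_add, map_pow, h01] at this
  have he2 : m2 ^ 2 + m2 ≠ 0 := by
    have := (map_ne_zero σ).2 he1
    rwa [map_add, map_pow, h12] at this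
  have he3 : m3 ^ 2 + m3 ≠ 0 := by
    have := (map_ne_zero σ).2 he2
    rwa [map_add, map_pow, h23] at this
  obtain ⟨k0, hk0⟩ := exists_as ((m3 ^ 2 + m3) * (m0 ^ 2 + m0) * ν ^ 2)
  obtain ⟨k1, g01⟩ : ∃ k1, σ k0 = k1 := ⟨_, rfl⟩
  obtain ⟨k2, g12⟩ : ∃ k2, σ k1 = k2 := ⟨_, rfl⟩
  obtain ⟨k3, g23⟩ : ∃ k3, σ k2 = k3 := ⟨_, rfl⟩
  have hk1 : k1 ^ 2 + k1 = (m0 ^ 2 + m0) * (m1 ^ 2 + m1) * ν ^ 2 := by
    simpa only [map_add, map_mul, map_pow, h01, h30, hσν, g01] using congrArg σ hk0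
  have hk2 : k2 ^ 2 + k2 = (m1 ^ 2 + m1) * (m2 ^ 2 + m2) * ν ^ 2 := by
    simpa only [map_add, map_mul, map_pow, h01, h12, hσν, g12] using congrArg σ hk1
  have hk3 : k3 ^ 2 + k3 = (m2 ^ 2 + m2) * (m3 ^ 2 + m3) * ν ^ 2 := by
    simpa only [map_add, map_mul, map_pow, h12, h23, hσν, g23] using congrArg σ hk2
  have hν' : (1 + m0 + m1 + m2 + m3) * ν = 1 := hμ ▸ hν
  have hη := eta_eq m0 m1 m2 m3 ν k0 k1 k2 k3 hν' hk0 hk1 hk2 hk3
  have hd13 := d13_eq m0 m1 m2 m3 ν k0 k1 k2 k3 hν'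
  obtain ⟨η, hη'⟩ : ∃ η, η = k0 + k1 + k2 + k3 + (m0 + m2) * (m1 + m3) * ν := ⟨_, rfl⟩
  rw [← hη'] at hη hd13
  have g30 : σ k3 = k0 := by
    have a1 : σ η = η := by rcases hη with rfl | rfl <;> simp
    rw [hη'] at a1
    simp only [map_add, map_mul, h01, h12, h23, h30, hσν, g01, g12, g23] at a1
    linear_combination a1
  have hd0 := d_eq m0 m1 m2 m3 ν k0 k1 hν' hk0 hk1
  have hd1 := d_eq m1 m2 m3 m0 ν k1 k2 (by linear_combination hν') hk1 hk2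
  obtain ⟨d0, hd0'⟩ : ∃ d, d = k0 + k1 + m0 + (m0 ^ 2 + m0) * ν := ⟨_, rfl⟩
  obtain ⟨d1, hd1'⟩ : ∃ d, d = k1 + k2 + m1 + (m1 ^ 2 + m1) * ν := ⟨_, rfl⟩
  rw [← hd0'] at hd0
  rw [← hd1'] at hd1 hd13
  obtain ⟨S0, S1, S2, S3, f01, f12, f23, f30, hC, hA, hE⟩ := exists_S hn σ hσ
    (α := (d0 ^ 2 + d0) * (d1 ^ 2 + d1)) (d0 := d0) (d1 := d1) (η := η)
    (by
      rw [hd0, hd1]
      exact mul_ne_zero (mul_ne_zero (mul_ne_zero he he2) (pow_ne_zero 2 hν0))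
        (mul_ne_zero (mul_ne_zero he1 he3) (pow_ne_zero 2 hν0)))
    (by
      rw [hd0, hd1]
      simp only [map_add, map_mul, map_pow, h01, h12, h23, h30, hσν]
      ring)
    hη rfl
    (by
      rw [hd0', hd1']
      simp only [map_add, map_mul, map_pow, h01, hσν, g01, g12])
    (by
      rw [← hd13, hd0']
      simp only [map_add, map_mul, map_pow, h30, hσν, g01, g30])
  refine ⟨k0 + S0, k1 + S1, k2 + S2, k3 + S3, by rw [map_add, g01, f01],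
    by rw [map_add, g12, f12], by rw [map_add, g23, f23], by rw [map_add, g30, f30, add_assoc], ?_⟩
  have hK : (μ * k1) ^ 2 + μ * (μ * k1) = (m0 ^ 2 + m0) * (m1 ^ 2 + m1) := by
    linear_combination μ ^ 2 * hk1 + (m0 ^ 2 + m0) * (m1 ^ 2 + m1) * (μ * ν + 1) * hν
  obtain ⟨a, ha⟩ : ∃ a, a = S0 + d0 + 1 := ⟨_, rfl⟩
  obtain ⟨b, hb⟩ : ∃ b, b = S2 + d1 := ⟨_, rfl⟩
  rw [← ha, ← hb] at hA hE
  have c0 : μ * (k0 + S0) = μ * k1 + μ * (m0 + 1 + a) + (m0 ^ 2 + m0) := by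
    rw [ha, hd0']
    linear_combination (norm := skip) (m0 ^ 2 + m0) * hν
    clear * -
    grind
  have c2 : μ * (k2 + S2) = μ * k1 + μ * (m1 + b) + (m1 ^ 2 + m1) := by
    rw [hb, hd1']
    linear_combination (norm := skip) (m1 ^ 2 + m1) * hν
    clear * -
    grind
  have cD : μ * (k0 + S0 + (k2 + S2) + 1 + m0 + m1) + (m0 ^ 2 + m0) + (m1 ^ 2 + m1) =
      μ * (a + b) := by
    linear_combination (norm := skip) c0 + c2
    clear * -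
    grind
  by_cases hab : a + b = 0
  · have e1 : b = a := by clear * - hab; grind
    have e2 : a = 0 ∨ a = 1 := by
      rw [hab, mul_zero, e1] at hA
      rcases mul_eq_zero.1 hA.symm with h | h
      · exact Or.inl h
      · right; clear * - h; grind
    have e3 := hE a e2 rfl e1
    rw [e1] at c2
    refine E1_exc m0 m1 m2 m3 (μ * k1) a _ _ _ μ _ _ hμ rfl rfl hK e2 c0 c2 ?_ hμ0
    rw [hd0, hd1] at e3
    have e4 : (S1 + a) * ((m0 ^ 2 + m0) * (m2 ^ 2 + m2) + (m3 ^ 2 + m3) * (m1 ^ 2 + m1)) =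
        (m0 ^ 2 + m0) * (m2 ^ 2 + m2) := by
      apply mul_right_cancel₀ (pow_ne_zero 2 hν0)
      linear_combination e3
    generalize (m0 ^ 2 + m0) * (m2 ^ 2 + m2) + (m3 ^ 2 + m3) * (m1 ^ 2 + m1) = Z at e4 ⊢
    generalize (m0 ^ 2 + m0) * (m2 ^ 2 + m2) = Y at e4 ⊢
    linear_combination μ * e4 - μ * a * Z * h2
  · refine E1_generic m0 m1 m2 m3 _ _ _ μ hμ ?_ ?_ (by rw [cD]; exact mul_ne_zero hμ0 hab)
    · rw [cD]
      apply mul_left_cancel₀ hμ0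
      have c0' : μ * (k0 + S0 + m0 + 1) = μ * k1 + μ * a + (m0 ^ 2 + m0) := by
        linear_combination (norm := skip) c0
        clear * -
        grind
      have c2' : μ * (k2 + S2 + m1 + 1) = μ * k1 + μ * (b + 1) + (m1 ^ 2 + m1) := by
        linear_combination (norm := skip) c2
        clear * -
        grind
      have c3 : μ * (μ * (k0 + S0 + m0 + 1) * (k2 + S2 + m1 + 1) +
          (m1 ^ 2 + m1) * (k0 + S0 + m0 + 1) + (m0 ^ 2 + m0) * (k2 + S2 + m1 + 1)) =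
          (μ * (k0 + S0 + m0 + 1)) * (μ * (k2 + S2 + m1 + 1)) +
          (m1 ^ 2 + m1) * (μ * (k0 + S0 + m0 + 1)) +
          (m0 ^ 2 + m0) * (μ * (k2 + S2 + m1 + 1)) := by ring
      rw [c3, c0', c2']
      generalize m0 ^ 2 + m0 = e0 at hK ⊢
      generalize m1 ^ 2 + m1 = e1 at hK ⊢
      linear_combination (norm := skip) μ ^ 2 * hA + hK
      clear * -
      grind
    · rw [hd0, hd1] at hC
      have c4 : (k0 + S0) ^ 2 + (k0 + S0) = (S0 ^ 2 + S0) + (k0 ^ 2 + k0) := by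
        clear * -; grind
      have c5 : (k2 + S2) ^ 2 + (k2 + S2) = (S2 ^ 2 + S2) + (k2 ^ 2 + k2) := by
        clear * -; grind
      rw [c4, c5, hk0, hk2]
      generalize m0 ^ 2 + m0 = e0 at hC ⊢
      generalize m1 ^ 2 + m1 = e1 at hC ⊢
      generalize m2 ^ 2 + m2 = e2 at hC ⊢
      generalize m3 ^ 2 + m3 = e3 at hC ⊢
      generalize S0 ^ 2 + S0 = X0 at hC ⊢
      generalize S2 ^ 2 + S2 = X2 at hC ⊢
      linear_combination (norm := skip) μ ^ 2 * hC +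
        (μ * ν + 1) * (e1 * e2 * X0 + e3 * e0 * X2) * hν
      clear * -
      grind

end Pool.Agent.Lib.MP_e79d62_co
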