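import Mathlib

set_option autoImplicit false

namespace Pool.Agent.Lib.MP_e79d62_co

open Module

theorem finrank_le_map {K V : Type} [Field K] [AddCommGroup V] [Module K V]
    [FiniteDimensional K V] (g : V →ₗ[K] V) (p : Submodule K V) :
    finrank K p ≤ finrank K (p.map g) + finrank K (LinearMap.ker g) := by
  have h1 := LinearMap.finrank_range_add_finrank_ker (g.domRestrict p)
  rw [LinearMap.range_domRestrict] at h1
  have h2 : finrank K (LinearMap.ker (g.domRestrict p)) ≤ finrank K (LinearMap.ker g) := by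
    rw [← Submodule.finrank_map_subtype_eq p]
    apply Submodule.finrank_mono
    rintro _ ⟨x, hx, rfl⟩
    exact hx
  omega

theorem finrank_range_lt {K V : Type} [Field K] [AddCommGroup V] [Module K V]
    (hV : finrank K V = 8) (g : V →ₗ[K] V) (hg : ∀ x, g (g (g (g x))) = 0) :
    finrank K (LinearMap.range g) < 7 := by
  have : FiniteDimensional K V := Module.finite_of_finrank_pos (by omega)
  have h1 := finrank_le_map g ⊤
  have h2 := finrank_le_map g (Submodule.map g ⊤)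
  have h3 := finrank_le_map g ((Submodule.map g ⊤).map g)
  have h4 := finrank_le_map g (((Submodule.map g ⊤).map g).map g)
  have h5 : (((Submodule.map g ⊤).map g).map g).map g = ⊥ := by
    rw [eq_bot_iff]
    rintro _ ⟨_, ⟨_, ⟨_, ⟨x, -, rfl⟩, rfl⟩, rfl⟩, rfl⟩
    exact hg x
  rw [h5, finrank_bot] at h4
  rw [finrank_top, hV] at h1
  have h6 := LinearMap.finrank_range_add_finrank_ker g
  omega

variable {F : Type} [Field F] [CharP F 2]

/-- the equation that makes the fourth power of `b · f` a scalar -/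
def RClaim (τ : F → F) (β : F) : Prop :=
  ∃ R, R * τ (τ (τ (τ R))) = τ (τ (τ β)) * β ∧
    (β + R) * (τ β + τ (τ R)) = τ (τ (τ (τ (τ R)))) * (1 + R) * (1 + τ (τ R))

theorem coeff_zero {b0 b1 b2 b3 b5 b6 b7 δ0 δ1 δ2 δ5 δ6 δ7 R1 R2 R3 R6 : F}
    (h1 : δ1 ≠ 0) (h2 : δ2 ≠ 0) (h5 : δ5 ≠ 0) (h6 : δ6 ≠ 0)
    (e1 : δ0 * δ5 * b5 = R1 * b1) (e2 : δ1 * δ6 * b6 = R2 * b2) (e3 : δ2 * δ7 * b7 = R3 * b3)
    (hN : R2 * R6 = δ5 * δ1 * (δ2 * δ6))
    (hE : (δ1 * δ5 + R1) * (δ2 * δ6 + R3) = R6 * (1 + R1) * (1 + R3)) :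
    b0 * (b1 + δ0 * δ5 * b5) * (b2 * (b3 + δ2 * δ7 * b7)) +
      b0 * (b1 * δ1 + δ0 * b5) * (b6 * (b7 * δ7 + δ6 * b3)) = 0 := by
  have hc : (2 : F) = 0 := CharP.cast_eq_zero F 2
  apply mul_left_cancel₀ (mul_ne_zero (mul_ne_zero h5 h1) (mul_ne_zero h2 h6))
  have a1 : δ5 * δ1 * (δ2 * δ6) * (b0 * (b1 * δ1 + δ0 * b5) * (b6 * (b7 * δ7 + δ6 * b3))) =
      b0 * (b1 * (δ1 * δ5) + δ0 * δ5 * b5) * ((δ1 * δ6 * b6) * (δ2 * δ7 * b7 + δ2 * δ6 * b3)) := by
    ring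
  rw [mul_add, a1, e1, e2, e3, mul_zero]
  have a2 : b0 * (b1 * (δ1 * δ5) + R1 * b1) * (R2 * b2 * (R3 * b3 + δ2 * δ6 * b3)) =
      b0 * b1 * b2 * b3 * R2 * ((δ1 * δ5 + R1) * (δ2 * δ6 + R3)) := by ring
  rw [a2, hE, ← hN]
  linear_combination (b0 * b1 * b2 * b3 * R2 * R6 * (1 + R1) * (1 + R3)) * hc

theorem exists_nilp (τ : F →+* F) (h8 : ∀ x, τ (τ (τ (τ (τ (τ (τ (τ x))))))) = x)
    (h4 : ∃ y, τ (τ (τ (τ y))) ≠ y) (hsq : ∀ u : F, ∃ w, w ^ 2 = u) {δ : F} (hδ : δ ≠ 0)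
    (hR : RClaim τ (δ * τ (τ (τ (τ δ))))) :
    ∃ w b : F, ∀ g : F → F, (∀ x, g x = w * x + b * (τ x + δ * τ (τ (τ (τ (τ x)))))) →
      (∀ x, g (g (g (g x))) = 0) ∧ ∃ x, g x ≠ 0 := by
  have hc : (2 : F) = 0 := CharP.cast_eq_zero F 2
  obtain ⟨R, hN, hE⟩ := hR
  obtain ⟨y, hy⟩ := h4
  have hne : ∀ {x : F}, x ≠ 0 → τ x ≠ 0 := fun h => (map_ne_zero τ).2 h
  have hδ1 := hne hδ
  have hδ2 := hne hδ1
  have hδ3 := hne hδ2
  have hδ4 := hne hδ3
  have hδ5 := hne hδ4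
  have hδ6 := hne hδ5
  have hδ7 := hne hδ6
  obtain ⟨ρ, hρ⟩ : ∃ ρ, τ (τ (τ (τ (τ (τ (τ δ)))))) * τ (τ (τ (τ δ))) * ρ = R :=
    ⟨_, mul_div_cancel₀ _ (mul_ne_zero hδ7 hδ4)⟩
  have hρ1 : ρ * τ (τ (τ (τ ρ))) = 1 := by
    rw [← hρ] at hN
    simp only [map_mul, h8] at hN
    apply mul_left_cancel₀ (mul_ne_zero (mul_ne_zero hδ7 hδ4) (mul_ne_zero hδ3 hδ))
    linear_combination hN
  obtain ⟨b, hb0, hb⟩ : ∃ b : F, b ≠ 0 ∧ τ (τ (τ (τ b))) = ρ * b := by
    by_contra hcon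
    push Not at hcon
    have a1 : ∀ z, τ (τ (τ (τ ρ))) * z + τ (τ (τ (τ z))) = 0 := by
      intro z
      by_contra h
      apply hcon _ h
      simp only [map_add, map_mul, h8]
      linear_combination (-z) * hρ1
    have a2 := a1 1
    have a3 := a1 y
    simp only [map_one] at a2
    apply hy
    linear_combination a3 - y * a2
  let L : F → F := fun x => b * (τ x + δ * τ (τ (τ (τ (τ x)))))
  have hL : ∀ x, L x = b * (τ x + δ * τ (τ (τ (τ (τ x))))) := fun _ => rfl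
  have hbR : τ (τ (τ (τ (τ (τ (τ δ)))))) * τ (τ (τ (τ δ))) * τ (τ (τ (τ b))) = R * b := by
    rw [hb, ← hρ]; ring
  obtain ⟨u, hu⟩ : ∃ u, ∀ x, L (L (L (L x))) = u * x := by
    have e1 := congrArg τ hbR
    have e2 := congrArg τ e1
    have e3 := congrArg τ e2
    have e4 := congrArg τ (congrArg τ hN)
    have e5 := congrArg τ hE
    simp only [map_add, map_mul, map_one, h8] at e1 e2 e3 e4 e5
    have key := coeff_zero (b0 := b) hδ1 hδ2 hδ5 hδ6 e1 e2 e3 e4 e5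
    refine ⟨L (L (L (L 1))), fun x => ?_⟩
    simp only [hL, map_add, map_mul, map_one, h8]
    linear_combination (τ (τ (τ (τ x))) - x) * key
  have hy1 : τ (τ (τ (τ (τ y)))) ≠ τ y := fun h => hy (τ.injective h)
  have hτu : τ u = u := by
    have a1 : ∀ x, L (u * x) = u * L x := by
      intro x; rw [← hu, hu (L x)]
    have a2 := a1 1
    have a3 := a1 y
    simp only [hL, map_mul, map_one] at a2 a3
    have : b * (τ u - u) * (τ (τ (τ (τ (τ y)))) - τ y) = 0 := by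
      linear_combination τ (τ (τ (τ (τ y)))) * a2 - a3
    exact sub_eq_zero.1 ((mul_eq_zero.1 ((mul_eq_zero.1 this).resolve_right
      (sub_ne_zero.2 hy1))).resolve_left hb0)
  obtain ⟨v, hv⟩ := hsq u
  obtain ⟨w, hw⟩ := hsq v
  have hw4 : w ^ 4 = u := by rw [← hv, ← hw]; ring
  have hτw : τ w = w := by
    have a1 : (τ w) ^ 4 = w ^ 4 := by rw [← map_pow, hw4, hτu]
    have a2 : (τ w - w) ^ 4 = 0 := by
      clear * - a1
      grind
    exact sub_eq_zero.1 (pow_eq_zero_iff (by norm_num) |>.1 a2)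
  have hLadd : ∀ x x', L (x + x') = L x + L x' := by
    intro x x'; simp only [hL, map_add]; ring
  have hLw : ∀ x, L (w * x) = w * L x := by
    intro x; simp only [hL, map_mul, hτw]; ring
  refine ⟨w, b, fun g hg => ⟨fun x => ?_, ?_⟩⟩
  · have hg' : ∀ x, g x = w * x + L x := hg
    simp only [hg', hLadd, hLw, hu]
    rw [← hw4]
    linear_combination (w ^ 4 * x + 2 * w ^ 3 * L x + 3 * w ^ 2 * L (L x) +
      2 * w * L (L (L x))) * hc
  · by_contra hcon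
    push Not at hcon
    have a1 : ∀ x, w * x * (y - τ (τ (τ (τ (τ y))))) =
        b * τ x * (τ (τ (τ (τ (τ y)))) - τ y) := by
      intro x
      have a2 := hcon x
      have a3 := hcon (x * y)
      rw [hg] at a2 a3
      simp only [map_mul] at a3
      linear_combination a3 - τ (τ (τ (τ (τ y)))) * a2
    have a2 := a1 1
    have a3 := a1 y
    rw [map_one] at a2
    have a4 : b * (τ y - y) * (τ (τ (τ (τ (τ y)))) - τ y) = 0 := by
      linear_combination y * a2 - a3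
    have a5 : τ y = y := sub_eq_zero.1 ((mul_eq_zero.1 ((mul_eq_zero.1 a4).resolve_right
      (sub_ne_zero.2 hy1))).resolve_left hb0)
    apply hy
    rw [a5, a5, a5, a5]

end Pool.Agent.Lib.MP_e79d62_co
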