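import Mathlib
import Pool.Agent.Lib.MP_e79d62_co.Exists
import Pool.Agent.Lib.MP_e79d62_co.Linear

set_option autoImplicit false

namespace Pool.Agent.Lib.MP_e79d62_co

open Polynomial

variable {k : Type} [Field k] [CharP k 2]

theorem conv_E1 {m0 m1 m2 m3 t0 t1 t2 t3 s0 s1 s2 r0 r2 r5 : k}
    (h0 : t0 * (1 + m0) = m0) (h1 : t1 * (1 + m1) = m1) (h2 : t2 * (1 + m2) = m2)
    (h3 : t3 * (1 + m3) = m3) (n0 : 1 + m0 ≠ 0) (n1 : 1 + m1 ≠ 0) (n2 : 1 + m2 ≠ 0)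
    (n3 : 1 + m3 ≠ 0) (g0 : r0 * s0 = 1 + s0) (g2 : r2 * s2 = 1 + s2) (g5 : r5 * (1 + s1) = s1)
    (hE : E1 m0 m1 m2 m3 s0 s1 s2) :
    (t0 + t3 * r0) * (t1 + t2 * r2) = r5 * (1 + t3 * t0 * r0) * (1 + t1 * t2 * r2) := by
  have hc : (2 : k) = 0 := CharP.cast_eq_zero k 2
  have hs0 : s0 ≠ 0 := by rintro rfl; simp at g0
  have hs2 : s2 ≠ 0 := by rintro rfl; simp at g2
  have hs1 : 1 + s1 ≠ 0 := by
    intro h
    rw [h, mul_zero] at g5
    rw [← g5] at h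
    simp at h
  have a1 : (t0 + t3 * r0) * (s0 * ((1 + m0) * (1 + m3))) = (m3 + m0) * s0 + m3 * (1 + m0) := by
    linear_combination s0 * (1 + m3) * h0 + (r0 * s0) * (1 + m0) * h3 + m3 * (1 + m0) * g0 +
      (m0 * m3 * s0) * hc
  have a2 : (t1 + t2 * r2) * (s2 * ((1 + m1) * (1 + m2))) = (m1 + m2) * s2 + m2 * (1 + m1) := by
    linear_combination s2 * (1 + m2) * h1 + (r2 * s2) * (1 + m1) * h2 + m2 * (1 + m1) * g2 +
      (m1 * m2 * s2) * hc
  have a3 : (1 + t3 * t0 * r0) * (s0 * ((1 + m0) * (1 + m3))) = (1 + m3 + m0) * s0 + m3 * m0 := by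
    linear_combination (r0 * s0) * (t3 * (1 + m3)) * h0 + (r0 * s0) * m0 * h3 + m3 * m0 * g0 +
      (m0 * m3 * s0) * hc
  have a4 : (1 + t1 * t2 * r2) * (s2 * ((1 + m1) * (1 + m2))) = (1 + m1 + m2) * s2 + m1 * m2 := by
    linear_combination (r2 * s2) * (t2 * (1 + m2)) * h1 + (r2 * s2) * m1 * h2 + m1 * m2 * g2 +
      (m1 * m2 * s2) * hc
  unfold E1 at hE
  rw [← a1, ← a2, ← a3, ← a4] at hE
  apply mul_left_cancel₀ (mul_ne_zero hs1 (mul_ne_zero (mul_ne_zero hs0 (mul_ne_zero n0 n3))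
    (mul_ne_zero hs2 (mul_ne_zero n1 n2))))
  linear_combination hE - (1 + t3 * t0 * r0) * (s0 * ((1 + m0) * (1 + m3))) *
    ((1 + t1 * t2 * r2) * (s2 * ((1 + m1) * (1 + m2)))) * g5

theorem conv_zero {m0 m1 m2 m3 t0 t1 t2 t3 : k}
    (h0 : t0 * (1 + m0) = m0) (h1 : t1 * (1 + m1) = m1) (h2 : t2 * (1 + m2) = m2)
    (h3 : t3 * (1 + m3) = m3) (n0 : 1 + m0 ≠ 0) (n1 : 1 + m1 ≠ 0) (n2 : 1 + m2 ≠ 0)
    (n3 : 1 + m3 ≠ 0) (hμ : 1 + m0 + m1 + m2 + m3 = 0) :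
    (t0 + t3 * 1) * (t1 + t2 * 1) = 1 * (1 + t3 * t0 * 1) * (1 + t1 * t2 * 1) := by
  have hc : (2 : k) = 0 := CharP.cast_eq_zero k 2
  have a1 : (t0 + t3 * 1) * ((1 + m0) * (1 + m3)) = m3 + m0 := by
    linear_combination (1 + m3) * h0 + (1 + m0) * h3 + (m0 * m3) * hc
  have a2 : (t1 + t2 * 1) * ((1 + m1) * (1 + m2)) = m1 + m2 := by
    linear_combination (1 + m2) * h1 + (1 + m1) * h2 + (m1 * m2) * hc
  have a3 : (1 + t3 * t0 * 1) * ((1 + m0) * (1 + m3)) = 1 + m3 + m0 := by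
    linear_combination (t3 * (1 + m3)) * h0 + m0 * h3 + (m0 * m3) * hc
  have a4 : (1 + t1 * t2 * 1) * ((1 + m1) * (1 + m2)) = 1 + m1 + m2 := by
    linear_combination (t2 * (1 + m2)) * h1 + m1 * h2 + (m1 * m2) * hc
  apply mul_left_cancel₀ (mul_ne_zero (mul_ne_zero n0 n3) (mul_ne_zero n1 n2))
  calc (1 + m0) * (1 + m3) * ((1 + m1) * (1 + m2)) * ((t0 + t3 * 1) * (t1 + t2 * 1))
      = ((t0 + t3 * 1) * ((1 + m0) * (1 + m3))) * ((t1 + t2 * 1) * ((1 + m1) * (1 + m2))) := by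
        ring
    _ = ((1 + t3 * t0 * 1) * ((1 + m0) * (1 + m3))) *
        ((1 + t1 * t2 * 1) * ((1 + m1) * (1 + m2))) := by
        rw [a1, a2, a3, a4]
        linear_combination -hμ
    _ = _ := by ring

theorem rclaim_closure [IsAlgClosed k] {n : ℕ} (hn : 1 ≤ n) (σ : k →+* k)
    (hσ : ∀ x, σ x = x ^ 2 ^ n) {β : k} (hβ : σ (σ (σ (σ β))) = β) (hβ0 : β ≠ 0) :
    ∃ R, σ (σ (σ (σ (σ (σ (σ (σ R))))))) = R ∧ R * σ (σ (σ (σ R))) = σ (σ (σ β)) * β ∧
      (β + R) * (σ β + σ (σ R)) = σ (σ (σ (σ (σ R)))) * (1 + R) * (1 + σ (σ R)) := by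
  have hc : (2 : k) = 0 := CharP.cast_eq_zero k 2
  by_cases hβ1 : β = 1
  · subst hβ1
    exact ⟨1, by simp, by simp, by simp⟩
  obtain ⟨t, rfl⟩ := IsAlgClosed.exists_pow_nat_eq β (n := 2) two_pos
  have ht4 : σ (σ (σ (σ t))) = t := by
    simp only [map_pow] at hβ
    have : (σ (σ (σ (σ t))) - t) ^ 2 = 0 := by
      linear_combination hβ + (t ^ 2 - σ (σ (σ (σ t))) * t) * hc
    exact sub_eq_zero.1 (pow_eq_zero_iff two_ne_zero |>.1 this)
  have ht0 : t ≠ 0 := by rintro rfl; simp at hβ0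
  have ht1 : 1 + t ≠ 0 := by
    intro h
    apply hβ1
    linear_combination (t - 1) * h
  obtain ⟨m, hm⟩ : ∃ m, m * (1 + t) = t := ⟨_, div_mul_cancel₀ _ ht1⟩
  have hm4 : σ (σ (σ (σ m))) = m := by
    have := congrArg (fun x => σ (σ (σ (σ x)))) hm
    simp only [map_mul, map_add, map_one, ht4] at this
    exact mul_right_cancel₀ ht1 (this.trans hm.symm)
  have h0 : t * (1 + m) = m := by linear_combination hm + (t - m) * hc
  have n0 : 1 + m ≠ 0 := by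
    intro h
    rw [h, mul_zero] at h0
    rw [← h0] at h
    simp at h
  have hm0 : m ≠ 0 := by rintro rfl; apply ht0; rw [← hm, zero_mul]
  have h1 := congrArg σ h0
  have h2 := congrArg σ h1
  have h3 := congrArg σ h2
  have n1 := (map_ne_zero σ).2 n0
  have n2 := (map_ne_zero σ).2 n1
  have n3 := (map_ne_zero σ).2 n2
  simp only [map_mul, map_add, map_one] at h1 h2 h3 n1 n2 n3
  obtain ⟨r, hr1, hr2⟩ : ∃ r, r * σ (σ (σ (σ r))) = 1 ∧
      (t + σ (σ (σ t)) * r) * (σ t + σ (σ t) * σ (σ r)) = σ (σ (σ (σ (σ r)))) *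
        (1 + σ (σ (σ t)) * t * r) * (1 + σ t * σ (σ t) * σ (σ r)) := by
    by_cases hμ : 1 + m + σ m + σ (σ m) + σ (σ (σ m)) = 0
    · refine ⟨1, by simp, ?_⟩
      simp only [map_one]
      exact conv_zero h0 h1 h2 h3 n0 n1 n2 n3 hμ
    · obtain ⟨s, _, _, _, rfl, rfl, rfl, hs, hE⟩ := exists_s hn σ hσ m _ _ _ rfl rfl rfl hm4
        (by rw [show m ^ 2 + m = m * (1 + m) by ring]; exact mul_ne_zero hm0 n0) hμ
      have hs0 : s ≠ 0 := by rintro rfl; simp at hs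
      have hs1 : s + 1 ≠ 0 := by rw [← hs]; simpa using hs0
      obtain ⟨r, hr⟩ : ∃ r, r * s = 1 + s := ⟨_, div_mul_cancel₀ _ hs0⟩
      have g2 := congrArg σ (congrArg σ hr)
      have g4 := congrArg σ (congrArg σ g2)
      simp only [map_mul, map_add, map_one, hs] at g2 g4
      have g5 := congrArg σ g4
      simp only [map_mul, map_add, map_one] at g5
      refine ⟨r, ?_, conv_E1 h0 h1 h2 h3 n0 n1 n2 n3 hr g2 (by linear_combination g5 + hc) hE⟩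
      apply mul_right_cancel₀ (mul_ne_zero hs0 hs1)
      linear_combination (σ (σ (σ (σ r))) * (s + 1)) * hr + (1 + s) * g4 + (s + 1) * hc
  have hr8 : σ (σ (σ (σ (σ (σ (σ (σ r))))))) = r := by
    have := congrArg (fun x => σ (σ (σ (σ x)))) hr1
    simp only [map_mul, map_one] at this
    linear_combination r * this - σ (σ (σ (σ (σ (σ (σ (σ r))))))) * hr1
  refine ⟨σ (σ (σ t)) * t * r, ?_, ?_, ?_⟩
  · simp only [map_mul, ht4, hr8]
  · simp only [map_mul, map_pow, ht4]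
    linear_combination (σ (σ (σ t)) * t) ^ 2 * hr1
  · simp only [map_mul, map_pow, ht4]
    linear_combination (t * σ t) * hr2

omit [CharP k 2] in
theorem mem_range_of_pow_card {F : Type} [Field F] [Fintype F] (ι : F →+* k) {x : k}
    (hx : x ^ Fintype.card F = x) : ∃ y, ι y = x := by
  have h0 : (X ^ Fintype.card F - X : F[X]) ≠ 0 :=
    FiniteField.X_pow_card_sub_X_ne_zero F Fintype.one_lt_card
  have hs : (X ^ Fintype.card F - X : F[X]).Splits := by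
    rw [splits_iff_card_roots, FiniteField.roots_X_pow_card_sub_X,
      FiniteField.X_pow_card_sub_X_natDegree_eq F Fintype.one_lt_card]
    rfl
  exact hs.mem_range_of_isRoot h0 (by simp [hx])

theorem rclaim_frob {F : Type} [Field F] [Fintype F] [CharP F 2] {n : ℕ} (hn : 1 ≤ n)
    (hF : Fintype.card F = (2 ^ n) ^ 8) (φ : F →+* F) (hφ : ∀ x, φ x = x ^ 2 ^ n) {β : F}
    (hβ : φ (φ (φ (φ β))) = β) (hβ0 : β ≠ 0) : RClaim φ β := by
  let ι := algebraMap F (AlgebraicClosure F)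
  let σ : AlgebraicClosure F →+* AlgebraicClosure F := iterateFrobenius _ 2 n
  have hσ : ∀ x, σ x = x ^ 2 ^ n := fun x => iterateFrobenius_def ..
  have hι : ∀ x, σ (ι x) = ι (φ x) := fun x => by rw [hσ, hφ, map_pow]
  obtain ⟨R, h1, h2, h3⟩ := rclaim_closure hn σ hσ (β := ι β) (by simp only [hι, hβ])
    ((map_ne_zero ι).2 hβ0)
  obtain ⟨R, rfl⟩ := mem_range_of_pow_card ι (x := R) (by
    rw [hF]
    conv_rhs => rw [← h1]
    simp only [hσ, ← pow_mul]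
    congr 1
    ring)
  simp only [hι] at h2 h3
  exact ⟨R, ι.injective (by simpa only [map_mul] using h2),
    ι.injective (by simpa only [map_mul, map_add, map_one] using h3)⟩

variable {F : Type} [Field F]

theorem RClaim.seven {τ : F →+* F} (h8 : ∀ x, τ (τ (τ (τ (τ (τ (τ (τ x))))))) = x) {β : F}
    (hβ : τ (τ (τ (τ β))) = β) (h : RClaim τ β) :
    RClaim (fun x => τ (τ (τ (τ (τ (τ (τ x))))))) β := by
  obtain ⟨R, h1, h2⟩ := h
  refine ⟨τ R, ?_, ?_⟩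
  · have := congrArg τ h1
    simp only [map_mul, h8, hβ] at this ⊢
    linear_combination this
  · have := congrArg (fun x => τ (τ (τ (τ (τ (τ (τ x))))))) h2
    simp only [map_mul, map_add, map_one, h8, hβ] at this ⊢
    linear_combination this

theorem RClaim.five {τ : F →+* F} (h8 : ∀ x, τ (τ (τ (τ (τ (τ (τ (τ x))))))) = x) {β : F}
    (hβ : τ (τ (τ (τ β))) = β) (hβ0 : β ≠ 0) (h : RClaim τ β⁻¹) :
    RClaim (fun x => τ (τ (τ (τ (τ x))))) β := by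
  obtain ⟨R, h1, h2⟩ := h
  have hβ1 := (map_ne_zero τ).2 hβ0
  have hβ2 := (map_ne_zero τ).2 hβ1
  have hβ3 := (map_ne_zero τ).2 hβ2
  simp only [map_inv₀] at h1 h2
  have hR0 : R ≠ 0 := by
    rintro rfl
    rw [zero_mul] at h1
    exact mul_ne_zero (inv_ne_zero hβ3) (inv_ne_zero hβ0) h1.symm
  have hR1 := (map_ne_zero τ).2 hR0
  have hR2 := (map_ne_zero τ).2 hR1
  have hR3 := (map_ne_zero τ).2 hR2
  have hR4 := (map_ne_zero τ).2 hR3
  have hR5 := (map_ne_zero τ).2 hR4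
  have hR6 := (map_ne_zero τ).2 hR5
  refine ⟨(τ (τ (τ (τ R))))⁻¹, ?_, ?_⟩
  · simp only [map_inv₀, h8, hβ]
    rw [← mul_inv, mul_comm, h1]
    simp [mul_comm]
  · have a1 := congrArg (fun x => τ (τ (τ (τ x)))) h2
    have a2 := congrArg τ h1
    simp only [map_mul, map_add, map_one, map_inv₀, h8, hβ] at a1 a2 ⊢
    generalize τ (τ (τ (τ (τ (τ R))))) = R6 at a1 hR6 ⊢
    generalize τ (τ (τ (τ (τ R)))) = R5 at a2 hR5 ⊢
    generalize τ (τ (τ (τ R))) = R4 at a1 hR4 ⊢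
    generalize τ R = R1 at a1 a2
    generalize τ β = β1 at a1 a2 hβ1 ⊢
    field_simp at a1 a2 ⊢
    linear_combination R5 * a1 + (1 + R4) * (1 + R6) * a2

end Pool.Agent.Lib.MP_e79d62_co
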